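import Mathlib

namespace Pool.Agent.Results.MP_df6457_lc.InfiniteFM

variable {α : Type}

/-- A language is factorial if it contains every factor of each of its words. -/
def Factorial (L : Language α) : Prop :=
  ∀ u v : List α, v ∈ L → u <:+: v → u ∈ L

/-- A language is transitive if any two of its words can be joined inside the language. -/
def TransitiveLang (L : Language α) : Prop :=
  ∀ u ∈ L, ∀ v ∈ L, ∃ w : List α, u ++ w ++ v ∈ L

/-- FTR languages: factorial, transitive and rational (regular). -/
structure IsFTR (L : Language α) : Prop where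
  factorial : Factorial L
  transitive : TransitiveLang L
  rational : L.IsRegular

/-- The minimal generating set `(M \ {1}) \ (M \ {1})^2` of a submonoid of a free monoid. -/
def gens (M : Submonoid (FreeMonoid α)) : Set (FreeMonoid α) :=
  {x | x ∈ M ∧ x ≠ 1 ∧ ¬ ∃ u v : FreeMonoid α, u ∈ M ∧ u ≠ 1 ∧ v ∈ M ∧ v ≠ 1 ∧ x = u * v}

/-- `M` is free: each of its elements is in exactly one way a product of a list of members of
the minimal generating set. -/
def IsFreeSub (M : Submonoid (FreeMonoid α)) : Prop :=
  ∀ x ∈ M, ∃! l : List (FreeMonoid α), (∀ g ∈ l, g ∈ gens M) ∧ l.prod = x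

/-- `M` is contained in the language `L`. -/
def Inside (M : Submonoid (FreeMonoid α)) (L : Language α) : Prop :=
  ∀ x ∈ M, FreeMonoid.toList x ∈ L

/-- The family of the `L`-maximal free submonoids. -/
def FM (L : Language α) : Set (Submonoid (FreeMonoid α)) :=
  {M | IsFreeSub M ∧ Inside M L ∧
    ∀ N : Submonoid (FreeMonoid α), IsFreeSub N → M ≤ N → Inside N L → N = M}

/-! ### Stability criterion -/

/-- Stable submonoids. -/
def Stable (M : Submonoid (FreeMonoid α)) : Prop :=
  ∀ u v w : FreeMonoid α, u ∈ M → v ∈ M → u * w ∈ M → w * v ∈ M → w ∈ M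

theorem gens_sub {M : Submonoid (FreeMonoid α)} {x : FreeMonoid α} (h : x ∈ gens M) : x ∈ M := h.1

theorem prod_mem {M : Submonoid (FreeMonoid α)} {l : List (FreeMonoid α)}
    (h : ∀ g ∈ l, g ∈ gens M) : l.prod ∈ M :=
  Submonoid.list_prod_mem M fun g hg => (h g hg).1

theorem len_mul (x y : FreeMonoid α) :
    (FreeMonoid.length (x * y)) = FreeMonoid.length x + FreeMonoid.length y := by
  simp

theorem eq_one_of_len {x : FreeMonoid α} (h : FreeMonoid.length x = 0) : x = 1 := by
  simpa using h

theorem stable_of_free {M : Submonoid (FreeMonoid α)} (h : IsFreeSub M) : Stable M := by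
  intro u v w hu hv huw hwv
  obtain ⟨lu, ⟨hlu, plu⟩, -⟩ := h u hu
  obtain ⟨lv, ⟨hlv, plv⟩, -⟩ := h v hv
  obtain ⟨luw, ⟨hluw, pluw⟩, -⟩ := h _ huw
  obtain ⟨lwv, ⟨hlwv, plwv⟩, -⟩ := h _ hwv
  have hm : u * w * v ∈ M := mul_mem huw hv
  have h1 : lu ++ lwv = luw ++ lv := by
    apply (h _ hm).unique
    · constructor
      · intro g hg
        rcases List.mem_append.1 hg with hg | hg
        · exact hlu g hg
        · exact hlwv g hg
      · rw [List.prod_append, plu, plwv, mul_assoc]
    · constructor
      · intro g hg
        rcases List.mem_append.1 hg with hg | hg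
        · exact hluw g hg
        · exact hlv g hg
      · rw [List.prod_append, pluw, plv]
  rcases List.append_eq_append_iff.1 h1 with ⟨a', ha, hb⟩ | ⟨c', hc, hd⟩
  · have : w = a'.prod := by
      have h2 : u * w = u * a'.prod := by
        rw [← pluw, ha, List.prod_append, plu]
      exact mul_left_cancel h2
    rw [this]
    apply prod_mem
    intro g hg
    apply hluw
    rw [ha]
    exact List.mem_append_right _ hg
  · have h2 : u = u * w * c'.prod := by
      conv_lhs => rw [← plu, hc, List.prod_append, pluw]
    have h3 := congrArg FreeMonoid.length h2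
    rw [len_mul, len_mul] at h3
    have h4 : w = 1 := eq_one_of_len (by omega)
    rw [h4]; exact one_mem _

theorem exists_fact {M : Submonoid (FreeMonoid α)} :
    ∀ (n : ℕ) (x : FreeMonoid α), FreeMonoid.length x ≤ n → x ∈ M →
      ∃ l : List (FreeMonoid α), (∀ g ∈ l, g ∈ gens M) ∧ l.prod = x := by
  intro n
  induction n with
  | zero =>
    intro x hx _
    refine ⟨[], by simp, ?_⟩
    rw [eq_one_of_len (Nat.le_zero.1 hx)]; rfl
  | succ n ih =>
    intro x hx hM
    by_cases h1 : x = 1
    · exact ⟨[], by simp, by rw [h1]; rfl⟩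
    by_cases h2 : ∃ u v : FreeMonoid α, u ∈ M ∧ u ≠ 1 ∧ v ∈ M ∧ v ≠ 1 ∧ x = u * v
    · obtain ⟨u, v, hu, hu1, hv, hv1, rfl⟩ := h2
      have hlu : FreeMonoid.length u ≠ 0 := fun h => hu1 (eq_one_of_len h)
      have hlv : FreeMonoid.length v ≠ 0 := fun h => hv1 (eq_one_of_len h)
      rw [len_mul] at hx
      obtain ⟨l1, h1, p1⟩ := ih u (by omega) hu
      obtain ⟨l2, h2, p2⟩ := ih v (by omega) hv
      refine ⟨l1 ++ l2, ?_, by rw [List.prod_append, p1, p2]⟩
      intro g hg
      rcases List.mem_append.1 hg with hg | hg
      · exact h1 g hg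
      · exact h2 g hg
    · refine ⟨[x], ?_, by simp⟩
      intro g hg
      rw [List.mem_singleton] at hg
      subst hg
      exact ⟨hM, h1, h2⟩

theorem stable_step {M : Submonoid (FreeMonoid α)} (hs : Stable M) {x y : FreeMonoid α}
    {s t : FreeMonoid α} (hx : x ∈ gens M) (hy : y ∈ gens M) (hsM : s ∈ M) (htM : t ∈ M)
    (h : x * s = y * t) (w : FreeMonoid α) (hw : x = y * w) : x = y := by
  have h1 : w * s = t := by
    rw [hw, mul_assoc] at h
    exact mul_left_cancel h
  have h2 : w ∈ M := hs y s w hy.1 hsM (hw ▸ hx.1) (h1.symm ▸ htM)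
  by_cases hw1 : w = 1
  · rw [hw, hw1, mul_one]
  · exact absurd ⟨y, w, hy.1, hy.2.1, h2, hw1, hw⟩ hx.2.2

theorem unique_fact {M : Submonoid (FreeMonoid α)} (hs : Stable M) :
    ∀ (l1 l2 : List (FreeMonoid α)), (∀ g ∈ l1, g ∈ gens M) → (∀ g ∈ l2, g ∈ gens M) →
      l1.prod = l2.prod → l1 = l2 := by
  intro l1
  induction l1 with
  | nil =>
    intro l2 _ h2 hp
    cases l2 with
    | nil => rfl
    | cons y t =>
      exfalso
      have hy := h2 y (by simp)
      have h3 := congrArg FreeMonoid.length hp
      rw [List.prod_nil, List.prod_cons, len_mul] at h3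
      have : FreeMonoid.length y = 0 := by
        have : FreeMonoid.length (1 : FreeMonoid α) = 0 := rfl
        omega
      exact hy.2.1 (eq_one_of_len this)
  | cons x s ih =>
    intro l2 h1 h2 hp
    cases l2 with
    | nil =>
      exfalso
      have hx := h1 x (by simp)
      have h3 := congrArg FreeMonoid.length hp
      rw [List.prod_nil, List.prod_cons, len_mul] at h3
      have : FreeMonoid.length x = 0 := by
        have : FreeMonoid.length (1 : FreeMonoid α) = 0 := rfl
        omega
      exact hx.2.1 (eq_one_of_len this)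
    | cons y t =>
      have hx := h1 x (by simp)
      have hy := h2 y (by simp)
      have hsM : s.prod ∈ M := prod_mem fun g hg => h1 g (by simp [hg])
      have htM : t.prod ∈ M := prod_mem fun g hg => h2 g (by simp [hg])
      rw [List.prod_cons, List.prod_cons] at hp
      have hxy : x = y := by
        have hp' : FreeMonoid.toList x ++ FreeMonoid.toList s.prod
            = FreeMonoid.toList y ++ FreeMonoid.toList t.prod := by
          simpa [FreeMonoid.toList_mul] using congrArg FreeMonoid.toList hp
        rcases List.append_eq_append_iff.1 hp' with ⟨a', ha, hb⟩ | ⟨c', hc, hd⟩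
        · have hy' : y = x * FreeMonoid.ofList a' := by
            apply FreeMonoid.toList.injective
            simpa [FreeMonoid.toList_mul] using ha
          exact (stable_step hs hy hx htM hsM hp.symm _ hy').symm
        · have hx' : x = y * FreeMonoid.ofList c' := by
            apply FreeMonoid.toList.injective
            simpa [FreeMonoid.toList_mul] using hc
          exact stable_step hs hx hy hsM htM hp _ hx'
      subst hxy
      have hst : s.prod = t.prod := mul_left_cancel hp
      rw [ih t (fun g hg => h1 g (by simp [hg])) (fun g hg => h2 g (by simp [hg])) hst]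

theorem free_of_stable {M : Submonoid (FreeMonoid α)} (hs : Stable M) : IsFreeSub M := by
  intro x hx
  obtain ⟨l, hl, hp⟩ := exists_fact (FreeMonoid.length x) x le_rfl hx
  refine ⟨l, ⟨hl, hp⟩, ?_⟩
  rintro l' ⟨hl', hp'⟩
  exact unique_fact hs l' l hl' hl (hp'.trans hp.symm)

theorem free_iff {M : Submonoid (FreeMonoid α)} : IsFreeSub M ↔ Stable M :=
  ⟨stable_of_free, free_of_stable⟩

/-! ### Every free submonoid inside `L` is below a maximal one -/

theorem exists_max (L : Language α) (M : Submonoid (FreeMonoid α)) (hM : IsFreeSub M)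
    (hL : Inside M L) : ∃ N ∈ FM L, M ≤ N := by
  obtain ⟨N, hMN, hN⟩ := zorn_le_nonempty₀
    {N : Submonoid (FreeMonoid α) | IsFreeSub N ∧ Inside N L} (by
      intro c hc hchain y hy
      refine ⟨sSup c, ⟨?_, ?_⟩, fun z hz => le_sSup hz⟩
      · rw [free_iff]
        intro u v w hu hv huw hwv
        have hdir : DirectedOn (· ≤ ·) c := hchain.directedOn
        rw [Submonoid.mem_sSup_of_directedOn ⟨y, hy⟩ hdir] at hu hv huw hwv ⊢
        obtain ⟨A, hA, hu⟩ := hu
        obtain ⟨B, hB, hv⟩ := hv
        obtain ⟨C, hC, huw⟩ := huw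
        obtain ⟨D, hD, hwv⟩ := hwv
        obtain ⟨E, hE, hAE, hBE⟩ := hdir A hA B hB
        obtain ⟨F, hF, hCF, hDF⟩ := hdir C hC D hD
        obtain ⟨G, hG, hEG, hFG⟩ := hdir E hE F hF
        exact ⟨G, hG, stable_of_free (hc hG).1 u v w (hEG (hAE hu)) (hEG (hBE hv))
          (hFG (hCF huw)) (hFG (hDF hwv))⟩
      · intro x hx
        have hdir : DirectedOn (· ≤ ·) c := hchain.directedOn
        rw [Submonoid.mem_sSup_of_directedOn ⟨y, hy⟩ hdir] at hx
        obtain ⟨A, hA, hx⟩ := hx
        exact (hc hA).2 x hx) M ⟨hM, hL⟩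
  refine ⟨N, ⟨hN.prop.1, hN.prop.2, ?_⟩, hMN⟩
  intro K hK hNK hKL
  exact le_antisymm (hN.le_of_ge ⟨hK, hKL⟩ hNK) hNK

/-! ### The language: words without the factor `bab` -/

/-- The words over `α` that do not have `bab` as a factor. -/
def noBab (a b : α) : Language α := {w | ¬ [b, a, b] <:+: w}

section
variable [DecidableEq α]

/-- transition function of the automaton -/
def st (a b : α) (s : Fin 4) (x : α) : Fin 4 :=
  if s = 0 then (if x = b then 1 else 0)
  else if s = 1 then (if x = b then 1 else if x = a then 2 else 0)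
  else if s = 2 then (if x = b then 3 else 0)
  else 3

/-- the word remembered by a state -/
def ctx (a b : α) (s : Fin 4) : List α :=
  if s = 0 then [] else if s = 1 then [b] else if s = 2 then [b, a] else [b, a, b]

/-- The automaton of `noBab a b`. -/
def auto (a b : α) : DFA α (Fin 4) where
  step := st a b
  start := 0
  accept := {3}ᶜ

theorem eval_iff {a b : α} (hab : a ≠ b) (w : List α) : ∀ s : Fin 4,
    (auto a b).evalFrom s w = 3 ↔ [b, a, b] <:+: ctx a b s ++ w := by
  induction w with
  | nil =>
    intro s
    fin_cases s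
    · simp [ctx]
    · simp [ctx, List.infix_cons_iff]
    · simp [ctx, List.infix_cons_iff]
    · simp [ctx]
  | cons x w ih =>
    intro s
    rw [DFA.evalFrom_cons, ih]
    fin_cases s
    · by_cases hx : x = b
      · simp [auto, st, ctx, hx]
      · simp [auto, st, ctx, hx, List.infix_cons_iff, Ne.symm hx]
    · by_cases hx : x = b
      · simp [auto, st, ctx, hx, List.infix_cons_iff, hab]
      · by_cases hxa : x = a
        · subst hxa
          simp [auto, st, ctx, hx]
        · simp [auto, st, ctx, hx, hxa, List.infix_cons_iff, Ne.symm hx, Ne.symm hxa]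
    · by_cases hx : x = b
      · subst hx
        simp only [auto, st, ctx]
        constructor
        · intro _
          exact ⟨[], w, by simp⟩
        · intro _
          exact ⟨[], w, by simp⟩
      · simp [auto, st, ctx, hx, List.infix_cons_iff, Ne.symm hx, Ne.symm hab]
    · simp only [auto, st, ctx]
      constructor
      · intro _
        exact ⟨[], x :: w, by simp⟩
      · intro _
        exact ⟨[], w, by simp⟩

theorem mem_noBab_iff {a b : α} (hab : a ≠ b) (w : List α) :
    w ∈ noBab a b ↔ (auto a b).evalFrom 0 w ≠ 3 := by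
  rw [Ne, eval_iff hab]
  simp only [ctx]
  rfl

theorem eval_three (a b : α) (w : List α) : (auto a b).evalFrom 3 w = 3 := by
  induction w with
  | nil => rfl
  | cons x w ih => rw [DFA.evalFrom_cons]; exact ih

theorem noBab_ftr {a b : α} (hab : a ≠ b) [Fintype α] : IsFTR (noBab a b) where
  factorial := by
    intro u v hv huv h
    exact hv (h.trans huv)
  transitive := by
    intro u hu v hv
    refine ⟨[a, a], ?_⟩
    rw [mem_noBab_iff hab] at hu hv ⊢
    rw [DFA.evalFrom_of_append, DFA.evalFrom_of_append]
    have : (auto a b).evalFrom ((auto a b).evalFrom 0 u) [a, a] = 0 := by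
      generalize (auto a b).evalFrom 0 u = s at hu
      rw [DFA.evalFrom_cons, DFA.evalFrom_cons, DFA.evalFrom_nil]
      fin_cases s
      · simp [auto, st, hab]
      · simp [auto, st, hab]
      · simp [auto, st, hab]
      · exact absurd rfl hu
    rw [this]
    exact hv
  rational := by
    refine ⟨Fin 4, inferInstance, auto a b, ?_⟩
    ext w
    rw [mem_noBab_iff hab]
    rfl

end

/-! ### The free submonoids `{b, a^p}*` -/

section
variable [DecidableEq α]

/-- Partial run of a word on the cyclic automaton with `p` states: `a` adds one, `b` fixes the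
state zero and all other moves are undefined. -/
def run (a b : α) (p : ℕ) : List α → Option (ZMod p) → Option (ZMod p)
  | [], s => s
  | _ :: _, none => none
  | x :: w, some s =>
    if x = a then run a b p w (some (s + 1))
    else if x = b ∧ s = 0 then run a b p w (some 0)
    else none

theorem run_none (a b : α) (p : ℕ) (w : List α) : run a b p w none = none := by
  cases w <;> rfl

theorem run_append (a b : α) (p : ℕ) (u v : List α) : ∀ s : Option (ZMod p),
    run a b p (u ++ v) s = run a b p v (run a b p u s) := by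
  induction u with
  | nil => intro s; rfl
  | cons x u ih =>
    intro s
    cases s with
    | none => simp [run, run_none]
    | some s =>
      simp only [List.cons_append, run]
      split_ifs
      · exact ih _
      · exact ih _
      · rw [run_none]

/-- The stabilizer of the state `0`. -/
def stab (a b : α) (p : ℕ) : Submonoid (FreeMonoid α) where
  carrier := {x | run a b p (FreeMonoid.toList x) (some 0) = some 0}
  one_mem' := rfl
  mul_mem' := by
    intro x y hx hy
    change run a b p (FreeMonoid.toList x) (some 0) = some 0 at hx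
    change run a b p (FreeMonoid.toList y) (some 0) = some 0 at hy
    change run a b p (FreeMonoid.toList (x * y)) (some 0) = some 0
    rw [FreeMonoid.toList_mul, run_append, hx, hy]

theorem mem_stab {a b : α} {p : ℕ} {x : FreeMonoid α} :
    x ∈ stab a b p ↔ run a b p (FreeMonoid.toList x) (some 0) = some 0 := Iff.rfl

theorem stab_free (a b : α) (p : ℕ) : IsFreeSub (stab a b p) := by
  apply free_of_stable
  intro u v w hu _ huw _
  rw [mem_stab] at hu huw ⊢
  rwa [FreeMonoid.toList_mul, run_append, hu] at huw

theorem run_replicate (a b : α) (p : ℕ) (n : ℕ) : ∀ s : ZMod p,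
    run a b p (List.replicate n a) (some s) = some (s + n) := by
  induction n with
  | zero => intro s; simp [run]
  | succ n ih =>
    intro s
    rw [List.replicate_succ]
    simp only [run, if_true]
    rw [ih]
    push_cast
    ring_nf

theorem b_mem_stab {a b : α} (hab : a ≠ b) (p : ℕ) : FreeMonoid.of b ∈ stab a b p := by
  rw [mem_stab]
  simp [run, Ne.symm hab]

omit [DecidableEq α] in
theorem toList_pow (a : α) (n : ℕ) :
    FreeMonoid.toList (FreeMonoid.of a ^ n) = List.replicate n a := by
  induction n with
  | zero => rfl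
  | succ n ih =>
    rw [pow_succ', FreeMonoid.toList_mul, ih]
    rfl

theorem a_mem_stab (a b : α) (p : ℕ) : FreeMonoid.of a ^ p ∈ stab a b p := by
  rw [mem_stab, toList_pow, run_replicate]
  simp

theorem stab_inside {a b : α} (hab : a ≠ b) {p : ℕ} (hp : 2 ≤ p) :
    Inside (stab a b p) (noBab a b) := by
  intro x hx hbad
  obtain ⟨s, t, hst⟩ := hbad
  rw [mem_stab, ← hst, run_append, run_append] at hx
  have hne : (1 : ZMod p) ≠ 0 := by
    have : Fact (1 < p) := ⟨by omega⟩
    exact one_ne_zero
  have key : ∀ o : Option (ZMod p), run a b p [b, a, b] o = none := by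
    intro o
    cases o with
    | none => exact run_none _ _ _ _
    | some q =>
      by_cases hq : q = 0
      · subst hq
        simp [run, Ne.symm hab, hne]
      · simp [run, Ne.symm hab, hq]
  rw [key, run_none] at hx
  cases hx

end

/-! ### Powers of `a` in a free submonoid -/

theorem pow_sub_mem {M : Submonoid (FreeMonoid α)} (hs : Stable M) {x : FreeMonoid α} {i j : ℕ}
    (hi : x ^ i ∈ M) (hj : x ^ (i + j) ∈ M) : x ^ j ∈ M := by
  apply hs (x ^ i) (x ^ i) (x ^ j) hi hi
  · rw [← pow_add]; exact hj
  · rw [← pow_add, add_comm]; exact hj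

theorem pow_mod_mem {M : Submonoid (FreeMonoid α)} (hs : Stable M) {x : FreeMonoid α} {i j : ℕ}
    (hi : x ^ i ∈ M) (hj : x ^ j ∈ M) : x ^ (j % i) ∈ M := by
  have h1 : x ^ (i * (j / i)) ∈ M := by
    rw [pow_mul]; exact pow_mem hi _
  apply pow_sub_mem hs h1
  rw [Nat.div_add_mod]
  exact hj

theorem pow_gcd_mem {M : Submonoid (FreeMonoid α)} (hs : Stable M) {x : FreeMonoid α}
    (i j : ℕ) : x ^ i ∈ M → x ^ j ∈ M → x ^ (Nat.gcd i j) ∈ M := by
  induction i, j using Nat.gcd.induction with
  | H0 n => intro _ h; simpa using h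
  | H1 m n hm ih =>
    intro h1 h2
    rw [Nat.gcd_rec]
    exact ih (pow_mod_mem hs h1 h2) h1

/-! ### Main theorem -/

/-- Let `a` and `b` be two different letters of a finite alphabet. The language `L` of all words
without the factor `bab` is factorial, transitive and rational, and it contains infinitely many
`L`-maximal free submonoids. -/
theorem result (α : Type) [Fintype α] (a b : α) (hab : a ≠ b) :
    IsFTR (noBab a b) ∧ (FM (noBab a b)).Infinite := by
  classical
  refine ⟨noBab_ftr hab, ?_⟩
  have key : ∀ p : Nat.Primes, ∃ N ∈ FM (noBab a b), stab a b p ≤ N := fun p =>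
    exists_max _ _ (stab_free a b p) (stab_inside hab p.2.two_le)
  choose f hf hle using key
  refine Set.infinite_of_injective_forall_mem (f := f) ?_ hf
  intro p q hpq
  by_contra hne
  have hne' : (p : ℕ) ≠ q := fun h => hne (Subtype.ext h)
  have hcop : Nat.gcd p q = 1 := (Nat.coprime_primes p.2 q.2).2 hne'
  have hs : Stable (f p) := stable_of_free (hf p).1
  have h1 : FreeMonoid.of a ^ (p : ℕ) ∈ f p := hle p (a_mem_stab a b p)
  have h2 : FreeMonoid.of a ^ (q : ℕ) ∈ f p := by
    rw [hpq]; exact hle q (a_mem_stab a b q)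
  have h3 := pow_gcd_mem hs _ _ h1 h2
  rw [hcop, pow_one] at h3
  have hb : FreeMonoid.of b ∈ f p := hle p (b_mem_stab hab p)
  have h4 : FreeMonoid.of b * FreeMonoid.of a * FreeMonoid.of b ∈ f p :=
    mul_mem (mul_mem hb h3) hb
  have h5 := (hf p).2.1 _ h4
  exact h5 (List.infix_refl _)

end Pool.Agent.Results.MP_df6457_lc.InfiniteFM
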